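import Pool.Agent.Q54.KP.StmA

/-!
# Project KP, job CLS
-/

set_option autoImplicit false

namespace Pool.Agent.Q208.KP

open Finset Pool.Agent.Q54.KP

theorem Rc_mono {V : Type} [Fintype V] [DecidableEq V] {E : Finset (Finset V)} {t : ℕ} {ι : Type}
    [Fintype ι] {β β' : ℝ} {u v : V} (h : Rc E t ι β u v) (hb : β' ≤ β) : Rc E t ι β' u v := by
  unfold Rc at h ⊢
  refine le_trans (mul_le_mul_of_nonneg_right hb ?_) h
  unfold nn
  positivity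

theorem step (hI : S_INC) (hC : S_CNC) (t : ℕ) (c ε : ℝ) (ht : 1 ≤ t) (hc : 0 < c) (hε : 0 < ε)
    (s : ℕ) (β : ℝ) (hβ : 0 < β) : ∃ β' : ℝ, 0 < β' ∧ ∃ n0 : ℕ,
    ∀ (V : Type) [Fintype V] [DecidableEq V] (E : Finset (Finset V)), Cod E c →
    n0 ≤ Fintype.card V → ∀ u v : V, u ≠ v →
      (Rc E t (Fin (3 * t * 2 ^ s - 1)) β u v → Rc E t (Fin (3 * t * 2 ^ (s + 1) - 1)) β' u v) ∧
      (ε * nn V ≤ cnt (fun w => w ≠ u ∧ w ≠ v ∧ Rc E t (Fin (3 * t * 2 ^ s - 1)) β u w ∧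
        Rc E t (Fin (3 * t * 2 ^ s - 1)) β w v) → Rc E t (Fin (3 * t * 2 ^ (s + 1) - 1)) β' u v) := by
  obtain ⟨b1, hb1, n1, h1⟩ := hI t c s β ht hc hβ
  obtain ⟨b2, hb2, n2, h2⟩ := hC t (3 * t * 2 ^ s - 1) (3 * t * 2 ^ s - 1) β β ε hβ hβ hε
  refine ⟨min b1 b2, lt_min hb1 hb2, max n1 n2, ?_⟩
  intro V _ _ E hE hn u v huv
  constructor
  · intro h
    exact Rc_mono (h1 V E hE ((le_max_left _ _).trans hn) u v huv h) (min_le_left _ _)
  · intro h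
    have h3 := h2 V E ((le_max_right _ _).trans hn) u v huv h
    have hM : 1 ≤ 3 * t * 2 ^ s := by
      have : 0 < 3 * t * 2 ^ s := by positivity
      omega
    have e : 3 * t * 2 ^ s - 1 + (3 * t * 2 ^ s - 1) + 1 = 3 * t * 2 ^ (s + 1) - 1 := by
      rw [pow_succ]
      have : 3 * t * (2 ^ s * 2) = 2 * (3 * t * 2 ^ s) := by ring
      rw [this]
      omega
    exact Rc_mono (Rc_equiv (finCongr e) h3) (min_le_right _ _)

theorem cls : S_PIG → S_LNK → S_INC → S_CNC → S_PRT → S_CLS := by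
  intro hPIG hLNK hINC hCNC hPRT t c ht hc hc1
  obtain ⟨q, hq, β', hβ', δ, hδ, n1, hpig⟩ := hPIG c hc hc1
  obtain ⟨ε, hε, n2, hprt⟩ := hPRT q δ hq hδ
  obtain ⟨β0, hβ0, n3, hlnk⟩ := hLNK t c β' ht hc hβ'
  have hst := step hINC hCNC t c ε (by omega) hc hε
  choose B hB N hN using hst
  let sq : ℕ → {β : ℝ // 0 < β} := fun s => Nat.rec (motive := fun _ => {β : ℝ // 0 < β})
    ⟨β0, hβ0⟩ (fun s b => ⟨B s b.1 b.2, hB s b.1 b.2⟩) s
  have hsq0 : (sq 0).1 = β0 := rfl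
  have hsq1 : ∀ s, (sq (s + 1)).1 = B s (sq s).1 (sq s).2 := fun s => rfl
  refine ⟨q, δ / 2, by positivity, (sq (q + 2)).1, (sq (q + 2)).2, 3 * t * 2 ^ (q + 2) - 1,
    n1 + n2 + n3 + ∑ s ∈ range (q + 2), N s (sq s).1 (sq s).2, ?_⟩
  intro V _ _ E hE hn
  have hNs : ∀ s ≤ q + 1, N s (sq s).1 (sq s).2 ≤ Fintype.card V := by
    intro s hs
    have h1 : N s (sq s).1 (sq s).2 ≤ ∑ s ∈ range (q + 2), N s (sq s).1 (sq s).2 :=
      single_le_sum (f := fun s => N s (sq s).1 (sq s).2) (fun _ _ => Nat.zero_le _)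
        (mem_range.mpr (by omega))
    omega
  obtain ⟨hp1, hp2⟩ := hpig V E hE (by omega)
  have hR0 : ∀ u v : V, u ≠ v → β' * nn V ^ 2 ≤ lk E u v →
      Rc E t (Fin (3 * t * 2 ^ 0 - 1)) (sq 0).1 u v := by
    intro u v huv h
    have h1 := hlnk V E hE (by omega) u v huv h
    have e : 3 * t - 1 = 3 * t * 2 ^ 0 - 1 := by simp
    exact Rc_equiv (finCongr e) h1
  obtain ⟨d, hd, cl, hcl1, hcl2⟩ := hprt V
    (fun s u v => Rc E t (Fin (3 * t * 2 ^ s - 1)) (sq s).1 u v) (by omega)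
    (fun s u v h => Rc_symm h)
    (fun s hs u v huv h => by
      have := (hN s (sq s).1 (sq s).2 V E hE (hNs s hs) u v huv).1 h
      exact this)
    (fun s hs u v huv h => by
      have := (hN s (sq s).1 (sq s).2 V E hE (hNs s hs) u v huv).2 h
      exact this)
    (fun A hA => by
      obtain ⟨u, hu, v, hv, huv, h⟩ := hp1 A hA
      exact ⟨u, hu, v, hv, huv, hR0 u v huv h⟩)
    (fun u => (hp2 u).trans (cnt_mono fun v hv => ⟨hv.1, hR0 u v hv.1.symm hv.2⟩))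
  exact ⟨d, hd, cl, hcl1, hcl2⟩

end Pool.Agent.Q208.KP
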