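import Pool.Agent.Q54.KP.StmA

/-!
# Project KP, job PIG
-/

set_option autoImplicit false

namespace Pool.Agent.Q208.KP

open Finset Pool.Agent.Q54.KP

section
variable {V : Type} [Fintype V] [DecidableEq V] (E : Finset (Finset V))

open Classical in
/-- indicator of the link -/
noncomputable def I (u : V) (p : V × V) : ℝ := if ed E u p.1 p.2 then 1 else 0

theorem I_nonneg (u : V) (p : V × V) : 0 ≤ I E u p := by
  unfold I; split_ifs <;> norm_num

theorem I_le (u : V) (p : V × V) : I E u p ≤ 1 := by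
  unfold I; split_ifs <;> norm_num

theorem I_sq (u : V) (p : V × V) : I E u p * I E u p = I E u p := by
  unfold I; split_ifs <;> norm_num

theorem dg2_eq (u : V) : dg2 E u = ∑ p : V × V, I E u p := by
  classical
  unfold dg2 I
  rw [cnt_eq_sum]

theorem lk_eq (u v : V) : lk E u v = ∑ p : V × V, I E u p * I E v p := by
  classical
  unfold lk
  rw [cnt_eq_sum]
  refine sum_congr rfl fun p _ => ?_
  unfold I
  by_cases h1 : ed E u p.1 p.2 <;> by_cases h2 : ed E v p.1 p.2 <;> simp [h1, h2]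

theorem nn_prod : ((univ : Finset (V × V)).card : ℝ) = nn V ^ 2 := by
  rw [card_univ, Fintype.card_prod]
  unfold nn
  push_cast
  ring

theorem lk_le (u v : V) : lk E u v ≤ nn V ^ 2 := by
  rw [lk_eq, ← nn_prod, ← nsmul_one, ← Finset.sum_const]
  refine sum_le_sum fun p _ => ?_
  have h1 := I_nonneg E u p
  have h2 := I_le E u p
  have h3 := I_nonneg E v p
  have h4 := I_le E v p
  nlinarith

variable {E}

theorem dg2_ge {c : ℝ} (hE : Cod E c) (hc : 0 < c) (hn : 2 ≤ nn V) (u : V) :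
    c / 2 * nn V ^ 2 ≤ dg2 E u := by
  classical
  have h1 : dg2 E u = ∑ x : V, cnt (fun y => ed E u x y) := by
    unfold dg2
    exact cnt_prod (fun x y => ed E u x y)
  have h2 : ∑ x ∈ univ.erase u, c * nn V ≤ ∑ x ∈ univ.erase u, cnt (fun y => ed E u x y) := by
    refine sum_le_sum fun x hx => hE.2 u x ?_
    exact (ne_of_mem_erase hx).symm
  have h3 : ∑ x ∈ univ.erase u, cnt (fun y => ed E u x y) ≤ ∑ x : V, cnt (fun y => ed E u x y) :=
    sum_le_sum_of_subset_of_nonneg (erase_subset _ _) fun _ _ _ => cnt_nonneg _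
  rw [sum_const, nsmul_eq_mul, card_erase_of_mem (mem_univ u), card_univ] at h2
  have h4 : ((Fintype.card V - 1 : ℕ) : ℝ) = nn V - 1 := by
    unfold nn at hn ⊢
    have : 1 ≤ Fintype.card V := by
      have : (2 : ℕ) ≤ Fintype.card V := by exact_mod_cast hn
      omega
    push_cast [Nat.cast_sub this]
    ring
  rw [h4] at h2
  rw [h1]
  have h5 : c / 2 * nn V ^ 2 ≤ (nn V - 1) * (c * nn V) := by
    have : 0 ≤ c * nn V := by positivity
    nlinarith
  linarith

/-- the number of third vertices -/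
theorem col_ge {c : ℝ} (hE : Cod E c) (u : V) (p : V × V) :
    I E u p * (c * nn V) ≤ I E u p * ∑ v : V, I E v p := by
  classical
  by_cases h : ed E u p.1 p.2
  · have h0 := ed_ne hE.1 h
    have h1 := hE.2 p.1 p.2 h0.2.2
    have h2 : cnt (fun z => ed E p.1 p.2 z) = ∑ v : V, I E v p := by
      have : cnt (fun z => ed E p.1 p.2 z) = cnt (fun z => ed E z p.1 p.2) := by
        apply cnt_congr
        intro z
        rw [ed_comm23 E p.1 p.2 z, ed_comm12 E p.1 z p.2]
      rw [this, cnt_eq_sum]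
      rfl
    rw [h2] at h1
    exact mul_le_mul_of_nonneg_left h1 (I_nonneg E u p)
  · have : I E u p = 0 := by unfold I; simp [h]
    rw [this]; simp

end

theorem pig : S_PIG := by
  intro c hc hc1
  have hc2 : 0 < c ^ 2 := by positivity
  refine ⟨⌈8 / c ^ 2⌉₊, ?_, c ^ 2 / 8, by positivity, c ^ 2 / 8, by positivity, ⌈4 / c ^ 2⌉₊ + 2, ?_⟩
  · exact Nat.ceil_pos.mpr (by positivity)
  intro V _ _ E hE hn
  have hn1 : 4 / c ^ 2 ≤ nn V := by
    have h1 : (4 / c ^ 2 : ℝ) ≤ ⌈4 / c ^ 2⌉₊ := Nat.le_ceil _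
    have h2 : ((⌈4 / c ^ 2⌉₊ + 2 : ℕ) : ℝ) ≤ nn V := by
      unfold nn; exact_mod_cast hn
    push_cast at h2
    linarith
  have hn2 : 2 ≤ nn V := by
    unfold nn
    have : (2 : ℕ) ≤ Fintype.card V := by omega
    exact_mod_cast this
  have hn0 : 0 < nn V := by linarith
  have hn1' : 4 ≤ nn V * c ^ 2 := by rwa [div_le_iff₀ hc2] at hn1
  constructor
  · -- pigeonhole in a set
    intro s hs
    by_contra hcon
    push Not at hcon
    set p : ℝ := ((⌈8 / c ^ 2⌉₊ + 1 : ℕ) : ℝ) with hp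
    have hsp : (s.card : ℝ) = p := by rw [hs]
    have hp8 : 8 < p * c ^ 2 := by
      have h1 : (8 / c ^ 2 : ℝ) ≤ ⌈8 / c ^ 2⌉₊ := Nat.le_ceil _
      have h2 : 8 / c ^ 2 < p := by rw [hp]; push_cast; linarith
      rwa [div_lt_iff₀ hc2] at h2
    have hp0 : 0 < p := by rw [hp]; positivity
    have hCS := sq_sum_le_card_mul_sum_sq (s := (univ : Finset (V × V)))
      (f := fun q => ∑ u ∈ s, I E u q)
    rw [nn_prod] at hCS
    have e1 : ∑ q : V × V, ∑ u ∈ s, I E u q = ∑ u ∈ s, dg2 E u := by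
      rw [sum_comm]
      exact sum_congr rfl fun u _ => (dg2_eq E u).symm
    have e2 : ∑ q : V × V, (∑ u ∈ s, I E u q) ^ 2 = ∑ u ∈ s, ∑ v ∈ s, lk E u v := by
      simp_rw [lk_eq, sq, sum_mul_sum]
      rw [sum_comm]
      refine sum_congr rfl fun u _ => ?_
      rw [sum_comm]
    rw [e1, e2] at hCS
    have h1 : p * (c / 2 * nn V ^ 2) ≤ ∑ u ∈ s, dg2 E u := by
      rw [← hsp, ← nsmul_eq_mul, ← sum_const]
      exact sum_le_sum fun u _ => dg2_ge hE hc hn2 u
    have h2 : ∑ u ∈ s, ∑ v ∈ s, lk E u v ≤ p * nn V ^ 2 + p ^ 2 * (c ^ 2 / 8 * nn V ^ 2) := by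
      have h3 : ∀ u ∈ s, ∑ v ∈ s, lk E u v ≤ nn V ^ 2 + p * (c ^ 2 / 8 * nn V ^ 2) := by
        intro u hu
        rw [← Finset.add_sum_erase s _ hu]
        refine add_le_add (lk_le E u u) ?_
        have h4 : ∑ v ∈ s.erase u, lk E u v ≤ ∑ v ∈ s.erase u, c ^ 2 / 8 * nn V ^ 2 :=
          sum_le_sum fun v hv =>
            (hcon u hu v (mem_of_mem_erase hv) (ne_of_mem_erase hv).symm).le
        refine h4.trans ?_
        rw [sum_const, nsmul_eq_mul]
        apply mul_le_mul_of_nonneg_right _ (by positivity)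
        rw [← hsp]
        exact_mod_cast card_le_card (erase_subset _ _)
      refine (sum_le_sum h3).trans ?_
      rw [sum_const, nsmul_eq_mul, hsp]
      linarith
    have h5 : (p * (c / 2 * nn V ^ 2)) ^ 2 ≤
        nn V ^ 2 * (p * nn V ^ 2 + p ^ 2 * (c ^ 2 / 8 * nn V ^ 2)) := by
      refine (pow_le_pow_left₀ (by positivity) h1 2).trans (hCS.trans ?_)
      exact mul_le_mul_of_nonneg_left h2 (by positivity)
    have h6 : nn V ^ 4 * p * (p * c ^ 2) ≤ nn V ^ 4 * p * 8 := by
      nlinarith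
    have h7 : 0 < nn V ^ 4 * p := by positivity
    have h8 := le_of_mul_le_mul_left h6 h7
    linarith
  · -- many good partners
    intro u
    classical
    have h1 : c / 2 * nn V ^ 2 * (c * nn V) ≤ ∑ v : V, lk E u v := by
      calc c / 2 * nn V ^ 2 * (c * nn V) ≤ dg2 E u * (c * nn V) :=
            mul_le_mul_of_nonneg_right (dg2_ge hE hc hn2 u) (by positivity)
        _ = ∑ p : V × V, I E u p * (c * nn V) := by rw [dg2_eq, Finset.sum_mul]
        _ ≤ ∑ p : V × V, I E u p * ∑ v : V, I E v p := sum_le_sum fun p _ => col_ge hE u p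
        _ = ∑ v : V, lk E u v := by
            simp_rw [lk_eq, Finset.mul_sum]
            rw [sum_comm]
    set N := cnt (fun v => v ≠ u ∧ c ^ 2 / 8 * nn V ^ 2 ≤ lk E u v) with hN
    have h2 : ∑ v : V, lk E u v ≤ N * nn V ^ 2 + nn V ^ 2 + nn V * (c ^ 2 / 8 * nn V ^ 2) := by
      have h3 : ∀ v : V, lk E u v ≤
          (if v ≠ u ∧ c ^ 2 / 8 * nn V ^ 2 ≤ lk E u v then (1 : ℝ) else 0) * nn V ^ 2 +
            (if v = u then nn V ^ 2 else 0) + c ^ 2 / 8 * nn V ^ 2 := by
        intro v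
        have h0 : 0 ≤ c ^ 2 / 8 * nn V ^ 2 := by positivity
        have h4 := lk_le E u v
        by_cases hv : v = u
        · simp only [hv, ne_eq, not_true_eq_false, false_and, if_false, if_true]
          have h5 := lk_le E u u
          linarith
        · by_cases hb : c ^ 2 / 8 * nn V ^ 2 ≤ lk E u v
          · simp only [ne_eq, hv, not_false_eq_true, hb, and_self, if_true, if_false]
            linarith
          · simp only [ne_eq, hv, not_false_eq_true, hb, and_false, if_false]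
            push Not at hb
            linarith
      refine (sum_le_sum fun v _ => h3 v).trans ?_
      rw [sum_add_distrib, sum_add_distrib, ← Finset.sum_mul, Finset.sum_ite_eq', if_pos (mem_univ u),
        sum_const, nsmul_eq_mul, hN, cnt_eq_sum, card_univ]
      exact le_refl _
    have h5 : 0 < nn V ^ 2 := by positivity
    have h6 : (c ^ 2 / 2 * nn V) * nn V ^ 2 ≤ (N + 1 + c ^ 2 / 8 * nn V) * nn V ^ 2 := by
      nlinarith
    have h7 := le_of_mul_le_mul_right h6 h5
    nlinarith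

end Pool.Agent.Q208.KP
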